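import Pool.Agent.W12.HZ.C2R

/-! HZ-C1R: chart 1, real variable part. -/

set_option autoImplicit false

namespace Pool.Agent.W12.HZ.C1R

open Polynomial Pool.Agent.W12.HZ.Pre Pool.Agent.W223.HZ
open Pool.Agent.W12.HZ.C2R (rootA)

theorem consts {C e A B G y y0 : ℝ} (hC : 1 ≤ C) (he : 0 ≤ e) (he1 : 40 * C ^ 4 * e ≤ 1)
    (hA : |A| ≤ C) (hB : |B| ≤ C) (hG : |G| ≤ C) (hy : |y| ≤ C) (hy0y : |y0 - y| ≤ C * e)
    (hd : 1 ≤ C * |A * y ^ 2 + 2 * B * y + G|) :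
    |y0| ≤ 2 * C ∧ |3 * (A * y0 ^ 2 + 2 * B * y0 + G)| ≤ 27 * C ^ 3 ∧
      |3 * A * y0 + 3 * B| ≤ 9 * C ^ 2 ∧ 2 ≤ C * |3 * (A * y0 ^ 2 + 2 * B * y0 + G)| := by
  have hC0 : 0 < C := by linarith
  have hC4 : 1 ≤ C ^ 4 := one_le_pow₀ hC
  have he3 : 1 * e ≤ C ^ 4 * e := by gcongr
  have he2 : e ≤ 1 := by linarith
  have hCe' : C * e ≤ C := by
    calc C * e ≤ C * 1 := by gcongr
      _ = C := mul_one C
  have hy0 : |y0| ≤ 2 * C := by
    have e1 : y0 = (y0 - y) + y := by ring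
    calc |y0| = |(y0 - y) + y| := by rw [← e1]
      _ ≤ |y0 - y| + |y| := abs_add_le _ _
      _ ≤ 2 * C := by linarith
  have h3 : (0 : ℝ) < 3 := by norm_num
  have hCC : C * 1 ≤ C * C := by gcongr
  have hCC3 : C ≤ C ^ 3 := by
    calc C = C ^ 1 := (pow_one C).symm
      _ ≤ C ^ 3 := pow_le_pow_right₀ hC (by norm_num)
  have hCC2 : C ^ 2 ≤ C ^ 3 := pow_le_pow_right₀ hC (by norm_num)
  refine ⟨hy0, ?_, ?_, ?_⟩
  · rw [abs_mul, abs_of_pos h3]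
    have c1 : |A * y0 ^ 2 + 2 * B * y0 + G| ≤ C * (2 * C) ^ 2 + 2 * C * (2 * C) + C := by
      calc |A * y0 ^ 2 + 2 * B * y0 + G| ≤ |A * y0 ^ 2 + 2 * B * y0| + |G| := abs_add_le _ _
        _ ≤ |A * y0 ^ 2| + |2 * B * y0| + |G| := by gcongr; exact abs_add_le _ _
        _ = |A| * |y0| ^ 2 + 2 * |B| * |y0| + |G| := by
          rw [abs_mul, abs_mul, abs_mul, abs_pow, abs_of_pos (by norm_num : (0 : ℝ) < 2)]
        _ ≤ C * (2 * C) ^ 2 + 2 * C * (2 * C) + C := by gcongr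
    have c2 : C * (2 * C) ^ 2 + 2 * C * (2 * C) + C = 4 * C ^ 3 + 4 * C ^ 2 + C := by ring
    linarith
  · calc |3 * A * y0 + 3 * B| ≤ |3 * A * y0| + |3 * B| := abs_add_le _ _
      _ = 3 * (|A| * |y0|) + 3 * |B| := by
        rw [abs_mul, abs_mul, abs_mul, abs_of_pos h3]; ring
      _ ≤ 3 * (C * (2 * C)) + 3 * C := by gcongr
      _ ≤ 9 * C ^ 2 := by rw [sq]; linarith
  · have c1 : |A * y ^ 2 + 2 * B * y + G| ≤ |A * y0 ^ 2 + 2 * B * y0 + G| +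
        C * e * (5 * C ^ 2) := by
      have c2 : A * y ^ 2 + 2 * B * y + G = (A * y0 ^ 2 + 2 * B * y0 + G) +
          (-(y0 - y)) * (A * (y0 + y) + 2 * B) := by ring
      have c3 : |A * (y0 + y) + 2 * B| ≤ 5 * C ^ 2 := by
        have c4 : |y0 + y| ≤ 3 * C := (abs_add_le _ _).trans (by linarith)
        calc |A * (y0 + y) + 2 * B| ≤ |A * (y0 + y)| + |2 * B| := abs_add_le _ _
          _ = |A| * |y0 + y| + 2 * |B| := by
            rw [abs_mul, abs_mul, abs_of_pos (by norm_num : (0 : ℝ) < 2)]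
          _ ≤ C * (3 * C) + 2 * C := by gcongr
          _ ≤ 5 * C ^ 2 := by rw [sq]; linarith
      calc |A * y ^ 2 + 2 * B * y + G| = |(A * y0 ^ 2 + 2 * B * y0 + G) +
          (-(y0 - y)) * (A * (y0 + y) + 2 * B)| := by rw [← c2]
        _ ≤ |A * y0 ^ 2 + 2 * B * y0 + G| + |(-(y0 - y)) * (A * (y0 + y) + 2 * B)| :=
          abs_add_le _ _
        _ = |A * y0 ^ 2 + 2 * B * y0 + G| + |y0 - y| * |A * (y0 + y) + 2 * B| := by
          rw [abs_mul, abs_neg]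
        _ ≤ _ := by gcongr
    have c5 : C * (C * e * (5 * C ^ 2)) ≤ 1 / 8 := by
      have : C * (C * e * (5 * C ^ 2)) = (40 * C ^ 4 * e) / 8 := by ring
      rw [this]; linarith
    have c6 : C * |A * y ^ 2 + 2 * B * y + G| ≤ C * (|A * y0 ^ 2 + 2 * B * y0 + G| +
        C * e * (5 * C ^ 2)) := by gcongr
    rw [abs_mul, abs_of_pos h3]
    have c8 : C * (|A * y0 ^ 2 + 2 * B * y0 + G| + C * e * (5 * C ^ 2)) =
      C * |A * y0 ^ 2 + 2 * B * y0 + G| + C * (C * e * (5 * C ^ 2)) := by ring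
    linarith

/-- the bootstrap -/
theorem boot {C δ y0 z : ℝ} (hC : 1 ≤ C) (hδ : 0 ≤ δ) (hδ1 : 8 * C * δ < 1) (hy0 : y0 ≠ 0)
    (hz : |z| ≤ 1) (h : |z| ≤ C * (δ * |y0 + z| ^ 3)) : |z| ≤ 8 * C * δ * |y0| ^ 3 := by
  have hC0 : 0 < C := by linarith
  have h1 : |y0 + z| ≤ |y0| + |z| := abs_add_le _ _
  rcases le_or_gt |y0| |z| with hc | hc
  · exfalso
    have hp : 0 < |z| := lt_of_lt_of_le (abs_pos.2 hy0) hc
    have h2 : |y0 + z| ^ 3 ≤ (2 * |z|) ^ 3 := by gcongr; linarith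
    have h3 : |z| ≤ (8 * C * δ) * |z| ^ 3 := by
      calc |z| ≤ C * (δ * |y0 + z| ^ 3) := h
        _ ≤ C * (δ * (2 * |z|) ^ 3) := by gcongr
        _ = _ := by ring
    have h4 : |z| ^ 3 ≤ |z| := by
      calc |z| ^ 3 ≤ |z| ^ 1 := pow_le_pow_of_le_one (abs_nonneg z) hz (by norm_num)
        _ = |z| := pow_one _
    have h5 : (8 * C * δ) * |z| ^ 3 ≤ (8 * C * δ) * |z| := by gcongr
    have h6 : (8 * C * δ) * |z| < 1 * |z| := mul_lt_mul_of_pos_right hδ1 hp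
    linarith
  · have h2 : |y0 + z| ^ 3 ≤ (2 * |y0|) ^ 3 := by gcongr; linarith
    calc |z| ≤ C * (δ * |y0 + z| ^ 3) := h
      _ ≤ C * (δ * (2 * |y0|) ^ 3) := by gcongr
      _ = _ := by ring

theorem lin_deg (b : ℝ) : (p4 1 b 0 0).natDegree ≤ 1 := by
  have e : p4 1 b 0 0 = C 1 + C b * X := by
    unfold p4; simp
  rw [e]
  compute_degree

theorem t : StmtC1R := by
  intro C hC
  have hC0 : 0 < C := by linarith
  have hC4 : 1 ≤ C ^ 4 := one_le_pow₀ hC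
  have hC7 : 1 ≤ C ^ 7 := one_le_pow₀ hC
  have hC47 : C ^ 4 ≤ C ^ 7 := pow_le_pow_right₀ hC (by norm_num)
  have hC37 : C ^ 3 ≤ C ^ 7 := pow_le_pow_right₀ hC (by norm_num)
  have hC27 : C ^ 2 ≤ C ^ 7 := pow_le_pow_right₀ hC (by norm_num)
  have hC57 : C ^ 5 ≤ C ^ 7 := pow_le_pow_right₀ hC (by norm_num)
  have hC67 : C ^ 6 ≤ C ^ 7 := pow_le_pow_right₀ hC (by norm_num)
  have hC17 : C ≤ C ^ 7 := by
    calc C = C ^ 1 := (pow_one C).symm
      _ ≤ C ^ 7 := pow_le_pow_right₀ hC (by norm_num)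
  refine ⟨1 / (20 * C ^ 3), 200 * C ^ 7, by positivity, by linarith, ?_⟩
  intro S L e A B G ι τ D y i₀ hS hL hLS he he0 hA0 hA hB hG hD hy hg hd hyy hτ hτL
  have he1 : 40 * C ^ 4 * e ≤ 1 := by
    have : C ^ 4 * e ≤ C ^ 7 * e := by gcongr
    have h7 : 0 ≤ C ^ 7 * e := by positivity
    linarith
  have hδ0 : 0 ≤ L / S := by positivity
  have hδ1 : 200 * C ^ 7 * (L / S) ≤ 1 := by
    rw [← mul_div_assoc, div_le_one hS]; exact hLS
  -- roots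
  have hroot : ∀ i, ∃ r : ℝ, |r - y i| ≤ C * e ∧
      D i * r ^ 3 + 3 * G * r ^ 2 + 3 * B * r + A = 0 := by
    intro i
    refine rootA hC he he1 (hD i) hG (hy i) ?_ ?_
    · have : D i * y i ^ 3 + 3 * G * y i ^ 2 + 3 * B * y i + A =
        A + 3 * B * y i + 3 * G * y i ^ 2 + D i * y i ^ 3 := by ring
      rw [this]; exact hg i
    · have : D i * y i ^ 2 + 2 * G * y i + B = B + 2 * G * y i + D i * y i ^ 2 := by ring
      rw [this]; exact hd i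
  choose r hr1 hr2 using hroot
  intro m
  have he3 : 1 * e ≤ C ^ 4 * e := by gcongr
  have he2 : e ≤ 1 := by linarith
  have hCe : C * e ≤ 1 / (40 * C ^ 3) := by
    rw [le_div_iff₀ (by positivity)]
    calc C * e * (40 * C ^ 3) = 40 * C ^ 4 * e := by ring
      _ ≤ 1 := he1
  obtain ⟨y0, hy0def⟩ : ∃ y0, y0 = r i₀ := ⟨_, rfl⟩
  have hy0y : |y0 - y i₀| ≤ C * e := by rw [hy0def]; exact hr1 i₀
  obtain ⟨hy0, b1, b2, b3⟩ := consts hC he he1 (hD i₀) hG hB (hy i₀) hy0y (by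
    have : D i₀ * y i₀ ^ 2 + 2 * G * y i₀ + B = B + 2 * G * y i₀ + D i₀ * y i₀ ^ 2 := by ring
    rw [this]; exact hd i₀)
  obtain ⟨a1, ha1⟩ : ∃ a1, a1 = 3 * (D i₀ * y0 ^ 2 + 2 * G * y0 + B) := ⟨_, rfl⟩
  obtain ⟨a2, ha2⟩ : ∃ a2, a2 = 3 * D i₀ * y0 + 3 * G := ⟨_, rfl⟩
  obtain ⟨a3, ha3⟩ : ∃ a3, a3 = D i₀ := ⟨_, rfl⟩
  have b4 : |a3| ≤ C := by rw [ha3]; exact hD i₀
  rw [← ha1] at b1 b3
  rw [← ha2] at b2
  have hy00 : y0 ≠ 0 := by
    intro h0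
    have h2 := hr2 i₀
    rw [← hy0def, h0] at h2
    apply hA0
    linarith
  have hz : ∀ i, |r i - y0| ≤ 1 / (10 * C ^ 3) := by
    intro i
    have e1 : r i - y0 = (r i - y i) + (y i - y i₀) + (-(y0 - y i₀)) := by ring
    have e2 : 1 / (10 * C ^ 3) = 1 / (40 * C ^ 3) + 1 / (20 * C ^ 3) + 1 / (40 * C ^ 3) := by
      field_simp; norm_num
    calc |r i - y0| = |(r i - y i) + (y i - y i₀) + (-(y0 - y i₀))| := by rw [← e1]
      _ ≤ |(r i - y i) + (y i - y i₀)| + |-(y0 - y i₀)| := abs_add_le _ _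
      _ ≤ |r i - y i| + |y i - y i₀| + |-(y0 - y i₀)| := by gcongr; exact abs_add_le _ _
      _ = |r i - y i| + |y i - y i₀| + |y0 - y i₀| := by rw [abs_neg (y0 - y i₀)]
      _ ≤ 1 / (10 * C ^ 3) := by linarith [hr1 i, hyy i i₀]
  have hrel : ∀ i, (τ i : ℝ) * r i ^ 3 = S * (-(a1 * (r i - y0) + a2 * (r i - y0) ^ 2 +
      a3 * (r i - y0) ^ 3)) := by
    intro i
    rw [hτ i, ha1, ha2, ha3]
    have h1 := hr2 i
    have h2 := hr2 i₀
    rw [← hy0def] at h2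
    linear_combination S * h1 - S * h2
  have hzL : ∀ i, |r i - y0| ≤ 8 * C * (L / S) * |y0| ^ 3 := by
    intro i
    have hz1 := hz i
    have hcond : 1 / C + |a2| * |r i - y0| + |a3| * |r i - y0| ^ 2 ≤ |a1| := by
      have c1 : |a2| * |r i - y0| ≤ 9 * C ^ 2 * (1 / (10 * C ^ 3)) := by gcongr
      have c2 : 9 * C ^ 2 * (1 / (10 * C ^ 3)) = 9 / 10 * (1 / C) := by field_simp
      have c3 : |a3| * |r i - y0| ^ 2 ≤ C * (1 / (10 * C ^ 3)) ^ 2 := by gcongr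
      have c4 : C * (1 / (10 * C ^ 3)) ^ 2 = 1 / 100 * (1 / C) * (1 / C ^ 4) := by
        field_simp; norm_num
      have c5 : 1 / C ^ 4 ≤ 1 := by
        rw [div_le_one (by positivity)]; exact hC4
      have c6 : 1 / 100 * (1 / C) * (1 / C ^ 4) ≤ 1 / 100 * (1 / C) * 1 := by gcongr
      have c7 : 2 * (1 / C) ≤ |a1| := by
        rw [mul_one_div, div_le_iff₀ hC0]
        linarith
      have c8 : 0 < 1 / C := by positivity
      linarith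
    have h1 := lin_low hcond
    have h2 : |a1 * (r i - y0) + a2 * (r i - y0) ^ 2 + a3 * (r i - y0) ^ 3| ≤
        L / S * |y0 + (r i - y0)| ^ 3 := by
      have e1 : y0 + (r i - y0) = r i := by ring
      rw [e1, div_mul_eq_mul_div, le_div_iff₀ hS]
      have h3 := congrArg abs (hrel i)
      rw [abs_mul, abs_mul, abs_neg, abs_of_pos hS, abs_pow] at h3
      have h4 : |(τ i : ℝ)| * |r i| ^ 3 ≤ L * |r i| ^ 3 := by gcongr; exact hτL i
      linarith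
    refine boot hC hδ0 ?_ hy00 (hz1.trans ?_) ?_
    · have h3 : C * (L / S) ≤ C ^ 7 * (L / S) := by gcongr
      have h4 : 0 ≤ C * (L / S) := by positivity
      rcases h4.eq_or_lt with h5 | h5
      · rw [mul_assoc, ← h5]; norm_num
      · linarith
    · rw [div_le_one (by positivity)]
      have : 1 ≤ C ^ 3 := one_le_pow₀ hC
      linarith
    · calc |r i - y0| = C * (1 / C * |r i - y0|) := by field_simp
        _ ≤ C * (L / S * |y0 + (r i - y0)| ^ 3) :=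
          mul_le_mul_of_nonneg_left (h1.trans h2) hC0.le
  -- the new parameter
  obtain ⟨U, hU⟩ : ∃ U : ι → ℝ, ∀ i, U i = (r i - y0) / y0 ^ 3 := ⟨fun i => _, fun i => rfl⟩
  have hUz : ∀ i, y0 ^ 3 * U i = r i - y0 := by
    intro i
    rw [hU i]
    field_simp
  have hUL : ∀ i, |U i| ≤ 8 * C * (L / S) := by
    intro i
    have h1 := hzL i
    rw [← hUz i, abs_mul, abs_pow] at h1
    have h2 : 0 < |y0| ^ 3 := by
      have := abs_pos.2 hy00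
      positivity
    refine le_of_mul_le_mul_left ?_ h2
    linarith
  obtain ⟨w, hw⟩ : ∃ w : ι → ℝ, ∀ i, w i = 1 + y0 ^ 2 * U i := ⟨fun i => _, fun i => rfl⟩
  have hwr : ∀ i, y0 * w i = r i := by
    intro i
    have h1 := hUz i
    rw [hw i]
    linear_combination h1
  have hw1 : ∀ i, 1 / 2 ≤ w i := by
    intro i
    have h1 : |y0 ^ 2 * U i| ≤ 1 / 2 := by
      rw [abs_mul, abs_pow]
      calc |y0| ^ 2 * |U i| ≤ (2 * C) ^ 2 * (8 * C * (L / S)) := by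
            gcongr; exact hUL i
        _ = 32 * (C ^ 3 * (L / S)) := by ring
        _ ≤ 32 * (C ^ 7 * (L / S)) := by gcongr
        _ ≤ 1 / 2 := by
          have h7 : 0 ≤ C ^ 7 * (L / S) := by positivity
          linarith
    have h2 := (abs_le.1 h1).1
    rw [hw i]
    linarith
  have hτw : ∀ i, w i ^ 3 * (τ i : ℝ) =
      S * (-(a1 * U i + a2 * y0 ^ 3 * U i ^ 2 + a3 * y0 ^ 6 * U i ^ 3)) := by
    intro i
    have h1 := hrel i
    rw [← hUz i, ← hwr i] at h1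
    have h2 : y0 ^ 3 ≠ 0 := pow_ne_zero 3 hy00
    apply mul_left_cancel₀ h2
    linear_combination h1
  have hC41 : 1 ≤ 200 * C ^ 7 := by linarith
  refine ⟨fun j => p4 0 (-a1) (-(a2 * y0 ^ 3)) (-(a3 * y0 ^ 6)) ^ (j : ℕ) *
      (p4 1 (y0 ^ 2) 0 0 ^ (3 * (m - 1 - (j : ℕ))) * 1), y0, y0 ^ 3, fun i => w i ^ (3 * (m - 1)),
    fun i => U i, fun i => y i - r i, ?_, ?_, ?_, ?_, ?_, ?_, ?_, ?_, ?_⟩
  · intro j
    have h1 : (p4 0 (-a1) (-(a2 * y0 ^ 3)) (-(a3 * y0 ^ 6)) ^ (j : ℕ)).natDegree ≤ (j : ℕ) * 3 :=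
      natDegree_pow_le_of_le (j : ℕ) (p4_deg _ _ _ _)
    have h2 : (p4 1 (y0 ^ 2) 0 0 ^ (3 * (m - 1 - (j : ℕ))) * 1).natDegree ≤
        3 * (m - 1 - (j : ℕ)) * 1 := by
      rw [mul_one]
      exact natDegree_pow_le_of_le _ (lin_deg _)
    have h3 := natDegree_mul_le_of_le h1 h2
    refine h3.trans ?_
    have := j.2
    omega
  · intro j k
    have h0 := pow_bd one_bd 1 (y0 ^ 2) 0 0 (3 * (m - 1 - (j : ℕ)))
    have h1 := pow_bd h0 0 (-a1) (-(a2 * y0 ^ 3)) (-(a3 * y0 ^ 6)) (j : ℕ) k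
    refine h1.trans ?_
    rw [mul_one, abs_zero, abs_neg, abs_neg, abs_neg, zero_add, abs_one, add_zero, add_zero]
    have c1 : |a2 * y0 ^ 3| ≤ 72 * C ^ 5 := by
      rw [abs_mul, abs_pow]
      calc |a2| * |y0| ^ 3 ≤ 9 * C ^ 2 * (2 * C) ^ 3 := by gcongr
        _ = 72 * C ^ 5 := by ring
    have c2 : |a3 * y0 ^ 6| ≤ 64 * C ^ 7 := by
      rw [abs_mul, abs_pow]
      calc |a3| * |y0| ^ 6 ≤ C * (2 * C) ^ 6 := by gcongr
        _ = 64 * C ^ 7 := by ring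
    have h2 : |a1| + |a2 * y0 ^ 3| + |a3 * y0 ^ 6| ≤ 200 * C ^ 7 := by linarith
    have h3 : (1 + |y0 ^ 2|) ^ 3 ≤ 200 * C ^ 7 := by
      have h4 : 1 + |y0 ^ 2| ≤ 5 * C ^ 2 := by
        rw [abs_pow]
        have h5 : |y0| ^ 2 ≤ (2 * C) ^ 2 := by gcongr
        have h6 : 1 ≤ C ^ 2 := one_le_pow₀ hC
        have h7 : (2 * C) ^ 2 = 4 * C ^ 2 := by ring
        linarith
      calc (1 + |y0 ^ 2|) ^ 3 ≤ (5 * C ^ 2) ^ 3 := by gcongr
        _ = 125 * C ^ 6 := by ring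
        _ ≤ 200 * C ^ 7 := by linarith
    rw [pow_mul (1 + |y0 ^ 2|) 3]
    calc (|a1| + |a2 * y0 ^ 3| + |a3 * y0 ^ 6|) ^ (j : ℕ) *
          ((1 + |y0 ^ 2|) ^ 3) ^ (m - 1 - (j : ℕ))
        ≤ (200 * C ^ 7) ^ (j : ℕ) * (200 * C ^ 7) ^ (m - 1 - (j : ℕ)) := by gcongr
      _ = (200 * C ^ 7) ^ ((j : ℕ) + (m - 1 - (j : ℕ))) := by rw [pow_add]
      _ ≤ (200 * C ^ 7) ^ m := by
        apply pow_le_pow_right₀ hC41
        have := j.2
        omega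
  · linarith
  · rw [abs_pow]
    calc |y0| ^ 3 ≤ (2 * C) ^ 3 := by gcongr
      _ = 8 * C ^ 3 := by ring
      _ ≤ 200 * C ^ 7 := by linarith
  · intro i
    show 1 ≤ (200 * C ^ 7) ^ m * w i ^ (3 * (m - 1))
    have h1 : (1 / 2 : ℝ) ^ 3 ≤ w i ^ 3 := by
      have := hw1 i
      gcongr
    have h2 : 1 ≤ 200 * C ^ 7 * w i ^ 3 := by
      calc (1 : ℝ) ≤ 200 * 1 * (1 / 2) ^ 3 := by norm_num
        _ ≤ 200 * C ^ 7 * w i ^ 3 := by gcongr
    have h3 : 0 ≤ w i ^ 3 := by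
      have : (0 : ℝ) ≤ (1 / 2) ^ 3 := by norm_num
      linarith
    calc (1 : ℝ) ≤ (200 * C ^ 7 * w i ^ 3) ^ (m - 1) := one_le_pow₀ h2
      _ = (200 * C ^ 7) ^ (m - 1) * w i ^ (3 * (m - 1)) := by rw [mul_pow, pow_mul]
      _ ≤ (200 * C ^ 7) ^ m * w i ^ (3 * (m - 1)) := by
        rw [pow_mul]
        gcongr
        omega
  · intro i
    refine (hUL i).trans ?_
    gcongr
    linarith
  · intro i
    show |y i - r i| ≤ _
    rw [abs_sub_comm]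
    refine (hr1 i).trans ?_
    gcongr
    linarith
  · intro i j
    show w i ^ (3 * (m - 1)) * (τ i : ℝ) ^ (j : ℕ) = S ^ (j : ℕ) *
      (p4 0 (-a1) (-(a2 * y0 ^ 3)) (-(a3 * y0 ^ 6)) ^ (j : ℕ) *
      (p4 1 (y0 ^ 2) 0 0 ^ (3 * (m - 1 - (j : ℕ))) * 1)).eval (U i)
    rw [mul_one, eval_mul, eval_pow, eval_pow, p4_eval, p4_eval]
    have e1 : (1 : ℝ) + y0 ^ 2 * U i + 0 * U i ^ 2 + 0 * U i ^ 3 = w i := by
      rw [hw i]; ring
    have e2 : 3 * (m - 1) = 3 * (j : ℕ) + 3 * (m - 1 - (j : ℕ)) := by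
      have := j.2
      omega
    have e3 := hτw i
    have e4 : S ^ (j : ℕ) * (0 + -a1 * U i + -(a2 * y0 ^ 3) * U i ^ 2 +
        -(a3 * y0 ^ 6) * U i ^ 3) ^ (j : ℕ) = (w i ^ 3) ^ (j : ℕ) * (τ i : ℝ) ^ (j : ℕ) := by
      rw [← mul_pow, ← mul_pow, e3]
      congr 1
      ring
    rw [e1, e2, pow_add, ← mul_assoc, e4, pow_mul]
    ring
  · intro i
    show y i = y0 + y0 ^ 3 * U i + (y i - r i)
    rw [hUz i]
    ring

end Pool.Agent.W12.HZ.C1R
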