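import Pool.Agent.W223.HZ.Stms

/-! HZ-NCU: the polynomial is not a cube. -/

set_option autoImplicit false

namespace Pool.Agent.W12.HZ.NCU

open Polynomial

theorem cube {a u z : ℤ} (hu : u ≠ 0) (h : a * u ^ 3 = z ^ 3) : ∃ e : ℤ, e ^ 3 = a := by
  have h1 : u ^ 3 ∣ z ^ 3 := ⟨a, by rw [← h]; ring⟩
  have h2 : u ∣ z := (Int.pow_dvd_pow_iff (by norm_num)).1 h1
  obtain ⟨e, rfl⟩ := h2
  refine ⟨e, ?_⟩
  have h3 : u ^ 3 ≠ 0 := pow_ne_zero 3 hu
  apply mul_right_cancel₀ h3
  rw [h]; ring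

theorem key (a b c d : ℤ) (ha : a ≠ 0) (hc : ∀ e : ℤ, e ^ 3 ≠ a) (U W Z : ℤ[X])
    (h0 : U ≠ 0 ∨ W ≠ 0)
    (h : C a * U ^ 3 + (C (3 * b) * (U ^ 2 * W) + (C (3 * c) * (U * W ^ 2) + (X + C d) * W ^ 3)) =
      Z ^ 3) : False := by
  by_cases hcase : W ≠ 0 ∧ U.natDegree ≤ W.natDegree
  · obtain ⟨hW, hUW⟩ := hcase
    have h1 : (C a * U ^ 3).natDegree ≤ 3 * W.natDegree :=
      (natDegree_C_mul_le _ _).trans (natDegree_pow_le_of_le 3 hUW)
    have h2 : (C (3 * b) * (U ^ 2 * W)).natDegree ≤ 3 * W.natDegree := by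
      refine (natDegree_C_mul_le _ _).trans ?_
      refine (natDegree_mul_le_of_le (natDegree_pow_le_of_le 2 hUW) le_rfl).trans ?_
      omega
    have h3 : (C (3 * c) * (U * W ^ 2)).natDegree ≤ 3 * W.natDegree := by
      refine (natDegree_C_mul_le _ _).trans ?_
      refine (natDegree_mul_le_of_le hUW (natDegree_pow_le_of_le 2 le_rfl)).trans ?_
      omega
    have h4 : ((X + C d) * W ^ 3).natDegree = 1 + 3 * W.natDegree := by
      rw [natDegree_mul (X_add_C_ne_zero d) (pow_ne_zero 3 hW), natDegree_X_add_C, natDegree_pow]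
    have h5 : (C a * U ^ 3 + (C (3 * b) * (U ^ 2 * W) + (C (3 * c) * (U * W ^ 2) +
        (X + C d) * W ^ 3))).natDegree = 1 + 3 * W.natDegree := by
      have e1 : (C (3 * c) * (U * W ^ 2) + (X + C d) * W ^ 3).natDegree = 1 + 3 * W.natDegree := by
        rw [natDegree_add_eq_right_of_natDegree_lt (by omega), h4]
      have e2 : (C (3 * b) * (U ^ 2 * W) + (C (3 * c) * (U * W ^ 2) +
          (X + C d) * W ^ 3)).natDegree = 1 + 3 * W.natDegree := by
        rw [natDegree_add_eq_right_of_natDegree_lt (by omega), e1]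
      rw [natDegree_add_eq_right_of_natDegree_lt (by omega), e2]
    rw [h, natDegree_pow] at h5
    omega
  · have hU : U ≠ 0 := by
      rintro rfl
      rcases h0 with h0 | h0
      · exact h0 rfl
      · exact hcase ⟨h0, by simp⟩
    have hlc : (C a * U ^ 3).leadingCoeff = a * U.leadingCoeff ^ 3 := by
      rw [leadingCoeff_mul, leadingCoeff_C, leadingCoeff_pow]
    by_cases hW : W = 0
    · subst hW
      have h1 : C a * U ^ 3 = Z ^ 3 := by
        rw [← h]; ring
      have h2 := congrArg leadingCoeff h1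
      rw [hlc, leadingCoeff_pow] at h2
      obtain ⟨e, he⟩ := cube (leadingCoeff_ne_zero.2 hU) h2
      exact hc e he
    · have hlt : W.natDegree < U.natDegree := by
        by_contra hcon
        exact hcase ⟨hW, not_lt.1 hcon⟩
      have h1 : (C a * U ^ 3).natDegree = 3 * U.natDegree := by
        rw [natDegree_C_mul ha, natDegree_pow]
      have h2 : (C (3 * b) * (U ^ 2 * W)).natDegree < 3 * U.natDegree := by
        refine lt_of_le_of_lt (natDegree_C_mul_le _ _) ?_
        refine lt_of_le_of_lt (natDegree_mul_le_of_le (natDegree_pow_le_of_le 2 le_rfl) le_rfl) ?_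
        omega
      have h3 : (C (3 * c) * (U * W ^ 2)).natDegree < 3 * U.natDegree := by
        refine lt_of_le_of_lt (natDegree_C_mul_le _ _) ?_
        refine lt_of_le_of_lt (natDegree_mul_le_of_le le_rfl (natDegree_pow_le_of_le 2 le_rfl)) ?_
        omega
      have h4 : ((X + C d) * W ^ 3).natDegree < 3 * U.natDegree := by
        rw [natDegree_mul (X_add_C_ne_zero d) (pow_ne_zero 3 hW), natDegree_X_add_C, natDegree_pow]
        omega
      have h5 : (C (3 * b) * (U ^ 2 * W) + (C (3 * c) * (U * W ^ 2) +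
          (X + C d) * W ^ 3)).natDegree < (C a * U ^ 3).natDegree := by
        rw [h1]
        refine lt_of_le_of_lt (natDegree_add_le _ _) (max_lt h2 ?_)
        exact lt_of_le_of_lt (natDegree_add_le _ _) (max_lt h3 h4)
      have h6 := congrArg leadingCoeff h
      rw [leadingCoeff_add_of_degree_lt' (degree_lt_degree h5), hlc, leadingCoeff_pow] at h6
      obtain ⟨e, he⟩ := cube (leadingCoeff_ne_zero.2 hU) h6
      exact hc e he

theorem t : Pool.Agent.W223.HZ.StmtNCU := by
  intro a b c d₁ ha hc A B P₁ P₂ hAB hP h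
  have hP2 : P₂ ≠ 0 := by
    rintro rfl
    rcases hP with hP | hP
    · apply hP
      have h1 : P₁ ^ 3 = 0 := by
        rw [← h]; ring
      exact pow_eq_zero_iff (by norm_num) |>.1 h1
    · exact hP rfl
  have h0 : -(P₂ * B) ≠ 0 ∨ P₂ * A ≠ 0 := by
    rcases hAB with h1 | h1
    · exact Or.inr (mul_ne_zero hP2 h1)
    · exact Or.inl (neg_ne_zero.2 (mul_ne_zero hP2 h1))
  refine key a b c d₁ ha hc (-(P₂ * B)) (P₂ * A) (-P₁) h0 ?_
  have e3 : (C (3 * b) : ℤ[X]) = 3 * C b := by rw [C_mul]; rfl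
  have e4 : (C (3 * c) : ℤ[X]) = 3 * C c := by rw [C_mul]; rfl
  rw [e3, e4]
  unfold Pool.Agent.W223.HZ.GP at h
  linear_combination h

end Pool.Agent.W12.HZ.NCU
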