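import Pool.Agent.W223.HZ.Stms

/-! HZ: auxiliary lemmas for the parametrisations. -/

set_option autoImplicit false

namespace Pool.Agent.W12.HZ.Pre

open Polynomial

/-- the four term polynomial -/
noncomputable def p4 (a b c d : ℝ) : ℝ[X] := C a + C b * X + C c * X ^ 2 + C d * X ^ 3

theorem p4_eval (a b c d x : ℝ) : (p4 a b c d).eval x = a + b * x + c * x ^ 2 + d * x ^ 3 := by
  simp [p4]

theorem p4_deg (a b c d : ℝ) : (p4 a b c d).natDegree ≤ 3 := by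
  unfold p4
  compute_degree

theorem shift_bd {q : ℝ[X]} {M : ℝ} (hM : 0 ≤ M) (hq : ∀ k, |q.coeff k| ≤ M) (a : ℝ) (n k : ℕ) :
    |(C a * X ^ n * q).coeff k| ≤ |a| * M := by
  rw [mul_assoc, coeff_C_mul, coeff_X_pow_mul', abs_mul]
  split_ifs
  · exact mul_le_mul_of_nonneg_left (hq _) (abs_nonneg a)
  · rw [abs_zero, mul_zero]
    positivity

theorem mul_bd {q : ℝ[X]} {M : ℝ} (hq : ∀ k, |q.coeff k| ≤ M) (a b c d : ℝ) (k : ℕ) :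
    |(p4 a b c d * q).coeff k| ≤ (|a| + |b| + |c| + |d|) * M := by
  have hM : 0 ≤ M := (abs_nonneg _).trans (hq 0)
  have e : p4 a b c d * q = C a * X ^ 0 * q + C b * X ^ 1 * q + C c * X ^ 2 * q +
      C d * X ^ 3 * q := by
    unfold p4; ring
  rw [e, coeff_add, coeff_add, coeff_add]
  have h0 := shift_bd hM hq a 0 k
  have h1 := shift_bd hM hq b 1 k
  have h2 := shift_bd hM hq c 2 k
  have h3 := shift_bd hM hq d 3 k
  have e1 := abs_add_le ((C a * X ^ 0 * q).coeff k + (C b * X ^ 1 * q).coeff k +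
    (C c * X ^ 2 * q).coeff k) ((C d * X ^ 3 * q).coeff k)
  have e2 := abs_add_le ((C a * X ^ 0 * q).coeff k + (C b * X ^ 1 * q).coeff k)
    ((C c * X ^ 2 * q).coeff k)
  have e3 := abs_add_le ((C a * X ^ 0 * q).coeff k) ((C b * X ^ 1 * q).coeff k)
  linarith

theorem pow_bd {q : ℝ[X]} {M : ℝ} (hq : ∀ k, |q.coeff k| ≤ M) (a b c d : ℝ) (j : ℕ) :
    ∀ k, |(p4 a b c d ^ j * q).coeff k| ≤ (|a| + |b| + |c| + |d|) ^ j * M := by
  induction j with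
  | zero => intro k; simpa using hq k
  | succ j ih =>
    intro k
    have e : p4 a b c d ^ (j + 1) * q = p4 a b c d * (p4 a b c d ^ j * q) := by ring
    rw [e]
    refine (mul_bd ih a b c d k).trans (le_of_eq ?_)
    ring

theorem one_bd (k : ℕ) : |(1 : ℝ[X]).coeff k| ≤ 1 := by
  rw [coeff_one]
  split_ifs <;> simp

theorem cubic_cont (p0 p1 p2 p3 : ℝ) :
    Continuous fun h : ℝ => p0 + p1 * h + p2 * h ^ 2 + p3 * h ^ 3 := by fun_prop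

/-- a root near `0` -/
theorem root_near {p0 p1 p2 p3 ρ : ℝ} (hρ : 0 ≤ ρ)
    (h : |p0| + |p2| * ρ ^ 2 + |p3| * ρ ^ 3 ≤ |p1| * ρ) :
    ∃ x : ℝ, |x| ≤ ρ ∧ p0 + p1 * x + p2 * x ^ 2 + p3 * x ^ 3 = 0 := by
  have hc := (cubic_cont p0 p1 p2 p3).continuousOn (s := Set.Icc (-ρ) ρ)
  have hle : -ρ ≤ ρ := by linarith
  have a0 := abs_le.1 (le_refl |p0|)
  have a2 := abs_le.1 (le_refl |p2|)
  have a3 := abs_le.1 (le_refl |p3|)
  have r2 : 0 ≤ ρ ^ 2 := by positivity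
  have r3 : 0 ≤ ρ ^ 3 := by positivity
  have b2 : |p2 * ρ ^ 2| = |p2| * ρ ^ 2 := by rw [abs_mul, abs_of_nonneg r2]
  have b3 : |p3 * ρ ^ 3| = |p3| * ρ ^ 3 := by rw [abs_mul, abs_of_nonneg r3]
  have c2 := abs_le.1 (le_of_eq b2)
  have c3 := abs_le.1 (le_of_eq b3)
  have n2 : p2 * (-ρ) ^ 2 = p2 * ρ ^ 2 := by ring
  have n3 : p3 * (-ρ) ^ 3 = -(p3 * ρ ^ 3) := by ring
  rcases le_total 0 p1 with hp | hp
  · rw [abs_of_nonneg hp] at h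
    have h1 : p0 + p1 * (-ρ) + p2 * (-ρ) ^ 2 + p3 * (-ρ) ^ 3 ≤ 0 := by
      rw [n2, n3]; linarith [a0.2, c2.2, c3.1]
    have h2 : 0 ≤ p0 + p1 * ρ + p2 * ρ ^ 2 + p3 * ρ ^ 3 := by linarith [a0.1, c2.1, c3.1]
    obtain ⟨x, hx, hx0⟩ := intermediate_value_Icc hle hc ⟨h1, h2⟩
    exact ⟨x, abs_le.2 hx, hx0⟩
  · rw [abs_of_nonpos hp] at h
    have h1 : 0 ≤ p0 + p1 * (-ρ) + p2 * (-ρ) ^ 2 + p3 * (-ρ) ^ 3 := by
      rw [n2, n3]; linarith [a0.1, c2.1, c3.2]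
    have h2 : p0 + p1 * ρ + p2 * ρ ^ 2 + p3 * ρ ^ 3 ≤ 0 := by linarith [a0.2, c2.2, c3.2]
    obtain ⟨x, hx, hx0⟩ := intermediate_value_Icc' hle hc ⟨h2, h1⟩
    exact ⟨x, abs_le.2 hx, hx0⟩

/-- injectivity near `0` -/
theorem lin_low {a1 a2 a3 z κ : ℝ} (h : κ + |a2| * |z| + |a3| * |z| ^ 2 ≤ |a1|) :
    κ * |z| ≤ |a1 * z + a2 * z ^ 2 + a3 * z ^ 3| := by
  have e1 : |a1 * z| ≤ |a1 * z + a2 * z ^ 2 + a3 * z ^ 3| + |a2 * z ^ 2| + |a3 * z ^ 3| := by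
    have : a1 * z = (a1 * z + a2 * z ^ 2 + a3 * z ^ 3) + (-(a2 * z ^ 2)) + (-(a3 * z ^ 3)) := by ring
    calc |a1 * z| = |(a1 * z + a2 * z ^ 2 + a3 * z ^ 3) + (-(a2 * z ^ 2)) + (-(a3 * z ^ 3))| := by
          rw [← this]
      _ ≤ |(a1 * z + a2 * z ^ 2 + a3 * z ^ 3) + (-(a2 * z ^ 2))| + |-(a3 * z ^ 3)| := abs_add_le _ _
      _ ≤ |a1 * z + a2 * z ^ 2 + a3 * z ^ 3| + |-(a2 * z ^ 2)| + |-(a3 * z ^ 3)| := by
          gcongr; exact abs_add_le _ _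
      _ = _ := by rw [abs_neg, abs_neg]
  rw [abs_mul, abs_mul, abs_mul, abs_pow, abs_pow] at e1
  have e2 := mul_le_mul_of_nonneg_right h (abs_nonneg z)
  nlinarith

end Pool.Agent.W12.HZ.Pre
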